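import Pool.Agent.H952R2.TY.P.FIN2
import Pool.Agent.H952R2.TY.P.A1
import Pool.Agent.H952R2.TY.P.A2
import Pool.Agent.H952R2.TY.P.A3
import Pool.Agent.H952R2.TY.P.A4
import Pool.Agent.H952R2.TY.P.A5
import Pool.Agent.H952R2.TY.P.A6
import Pool.Agent.H952R2.TY.P.A7
import Pool.Agent.H952R2.TY.P.A8
import Pool.Agent.H952R2.TY.P.A9
import Pool.Agent.H952R2.TY.P.A10
import Pool.Agent.H952R2.TY.P.A11
import Pool.Agent.H952R2.TY.P.A12
import Pool.Agent.H952R2.TY.P.B0
import Pool.Agent.H952R2.TY.P.B1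
import Pool.Agent.H952R2.TY.P.B2
import Pool.Agent.H952R2.TY.P.B3
import Pool.Agent.H952R2.TY.P.B4
import Pool.Agent.H952R2.TY.P.B5
import Pool.Agent.H952R2.TY.P.B6
import Pool.Agent.H952R2.TY.P.B7
import Pool.Agent.H952R2.TY.P.C1
import Pool.Agent.H952R2.TY.P.C2
import Pool.Agent.H952R2.TY.P.C3
import Pool.Agent.H952R2.TY.P.C4
import Pool.Agent.H952R2.TY.P.C5
import Pool.Agent.H952R2.TY.P.C6
import Pool.Agent.H952R2.TY.P.D1
import Pool.Agent.H952R2.TY.P.D2
import Pool.Agent.H952R2.TY.P.D3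
import Pool.Agent.H952R2.TY.P.D4
import Pool.Agent.H952R2.TY.P.D5
import Pool.Agent.H952R2.TY.P.D6
import Pool.Agent.H952R2.TY.P.D7
import Pool.Agent.H952R2.TY.P.T1
import Pool.Agent.H952R2.TY.P.T2
import Pool.Agent.H952R2.TY.P.T3
import Pool.Agent.H952R2.TY.P.T4
import Pool.Agent.H952R2.TY.P.T5
import Pool.Agent.H952R2.TY.P.T6
import Pool.Agent.H952R2.TY.P.T7
import Pool.Agent.H952R2.TY.P.T8

/-!
# MP_f981b0_an: typical quasinilpotent elements of McDuff algebras

Let `M` be a von Neumann algebra with a faithful normal tracial state `τ` in which every operator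
almost commutes, in the 2-norm, with matrix units of every size (every McDuff factor is such an
algebra). The contractions of `M` that are quasinilpotent in measure (Brown measure `δ₀`), with
the metric of the 2-norm, form a Baire space, and the typical one (in the sense of Baire category)
is injective and has a hyperinvariant projection of trace `1/2` in `M`.

The parts are from the starting repository (helper952 and helpers, never assembled nor handed in).
-/

set_option autoImplicit false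
open Filter Topology
open scoped ComplexOrder InnerProductSpace

namespace Pool.Agent.Results.MP_f981b0_an.McDuffTypicalHyperinvariant

open Pool.Agent.H952R2.TY

lemma c1 : S_C1 := P.C1 P.A1
lemma t3 : S_T3 := P.T3 P.T2
lemma a12 : S_A12 :=
  P.A12 (P.A10 P.A1 P.A2 P.A3 (P.A4 P.A3) P.A5 P.A6 P.A7 P.A8 P.A9) P.A11
lemma b7 : S_B7 := P.B7 P.B0 P.B1 (P.B2 P.B0 P.B1) P.B3 P.B4 (P.B5 P.B3) P.B6
lemma d1 : S_D1 := P.D1 c1 P.C2
lemma step : P.S_STEP2 :=
  P.STEP2 a12 P.B0 b7 c1 (P.C4 c1 P.C2 (P.C3 P.C2)) (P.C6 P.C2) d1 (P.D2 P.C2 d1) P.D3 P.D4 P.D5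
    P.D6 P.D7

lemma final : P.S_FIN2 :=
  P.FIN2 (P.T4 P.T1 t3) P.T5 (P.T6 P.T1) (P.T7 P.T1 t3 P.D5) (P.T8 c1 (P.C6 P.C2)) step
    (P.C5 P.C2)

/-- **Typical quasinilpotent contractions of a McDuff algebra have hyperinvariant projections.**
`QC M τ` is the set of the contractions `T ∈ M` such that for every `r > 0` there are `n ≥ 1` and a
projection `q ∈ M` with `τ q ≥ 1 - r` and `‖T ^ n q‖ ≤ r ^ n`. -/
theorem result (H : Type) [NormedAddCommGroup H] [InnerProductSpace ℂ H] [CompleteSpace H]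
    (M : VonNeumannAlgebra H) (τ : (H →L[ℂ] H) →ₗ[ℂ] ℂ)
    -- `τ` is a faithful normal tracial state on `M`
    (hone : τ 1 = 1)
    (hpos : ∀ x ∈ M, 0 ≤ τ (star x * x))
    (hfaithful : ∀ x ∈ M, τ (star x * x) = 0 → x = 0)
    (htracial : ∀ x ∈ M, ∀ y ∈ M, τ (x * y) = τ (y * x))
    (hnormal : ∀ (x : ℕ → (H →L[ℂ] H)) (y : H →L[ℂ] H), (∀ n, x n ∈ M) → (∀ n, ‖x n‖ ≤ 1) →
      y ∈ M → (∀ v, Tendsto (fun n => x n v) atTop (𝓝 (y v))) →
      Tendsto (fun n => τ (x n)) atTop (𝓝 (τ y)))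
    -- the McDuff property: every element of `M` almost commutes, in the 2-norm, with matrix units
    -- of every size in `M`
    (hMcDuff : ∀ m : ℕ, 1 ≤ m → ∀ T ∈ M, ∀ ε : ℝ, 0 < ε →
      ∃ e : Fin m → Fin m → (H →L[ℂ] H),
        (∀ i j, e i j ∈ M) ∧ (∀ i j k l, e i j * e k l = if j = k then e i l else 0) ∧
        (∀ i j, star (e i j) = e j i) ∧ ∑ i, e i i = 1 ∧
        ∀ i j, (τ (star (e i j * T - T * e i j) * (e i j * T - T * e i j))).re ≤ ε) :
    ∃ _ : MetricSpace (QC M τ),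
      (∀ S T : QC M τ, dist S T = Real.sqrt (τ (star (S.op - T.op) * (S.op - T.op))).re) ∧
      BaireSpace (QC M τ) ∧
      {T : QC M τ | (∀ v, T.op v = 0 → v = 0) ∧
        ∃ E ∈ M, star E = E ∧ E * E = E ∧ τ E = 1 / 2 ∧
          ∀ S ∈ M, S * T.op = T.op * S → S * E = E * S * E} ∈ residual (QC M τ) :=
  final H M τ hone hpos hfaithful htracial hnormal hMcDuff

end Pool.Agent.Results.MP_f981b0_an.McDuffTypicalHyperinvariant
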